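import Pool.Agent.helper17.EXT.Spec

/-!
# Row `ft:ESF` (MP_561ff4_al)

Facts on long root vectors.
-/

set_option autoImplicit false

open Finset

namespace Pool.Agent.EXT

open Pool.Agent.EXC

theorem ESF_sn (v : Fin 6 → ℤ) (hv : pv v = v) : sn v = 1 := by
  have h0 : v 5 = v 0 := congrFun hv 0
  have h2 : v 4 = v 2 := congrFun hv 2
  unfold sn
  rw [if_pos]
  refine ⟨v 0 * v 2 + v 2 * v 3, ?_⟩
  rw [h0, h2]
  ring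

theorem ESF (hSIG : SIG_stmt) (hSGR : SGR_stmt) : ESF_stmt := by
  intro K _ τ hτ
  obtain ⟨s1, s2, s3, s4, s5, s6, s7, s8⟩ := hSIG K τ hτ
  obtain ⟨g1, g2, g3, g4, g5, g6⟩ := hSGR K τ hτ
  obtain ⟨e1, e2, e3, e4⟩ := f_EXF 6 C6 K (f_NBR 6 C6 1 th ![0, 2, 3, 4, 5] f_DE6.2).1
  refine ⟨fun β hβ => ⟨1, one_mem _, β, hβ, 1, map_one τ, one_ne_zero, ?_⟩, ?_⟩
  · rw [one_smul]
    rfl
  rintro a ⟨g, hg, β, hβ, c, hc, hc0, rfl⟩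
  obtain ⟨hgE, hgA, hgs⟩ := g6 g hg
  have hEβ : Ex C6 (E C6 β : Lm C6 K) := e2 β hβ.1
  have hEx : Ex C6 (c • g (E C6 β) : Lm C6 K) := ⟨g, hgE, β, hβ.1, c, hc0, rfl⟩
  have hgβ : Ex C6 (g (E C6 β) : Lm C6 K) := (e3 _ hEβ).2.2.1 g hgE
  have hX := f_XAU 6 C6 K _ (e3 _ hgβ).1
  have key : ∀ t : K, τ t = t → ∃ g' ∈ GS τ, IsX C6 (c • g (E C6 β) : Lm C6 K) t g' := by
    intro t ht
    obtain ⟨x, hx, hxX⟩ := g2 β (c * t) hβ (by rw [map_mul, hc, ht])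
    refine ⟨g * x * g⁻¹, mul_mem (mul_mem hg hx) (inv_mem hg), fun v => ?_⟩
    rw [(hX.2.2.2 c).2 t v]
    exact (e3 _ hEβ).2.2.2.2.2.2.2.1 g hgE (c * t) x hxX v
  refine ⟨hEx, (e3 _ hEx).2.1, ?_, ?_, ?_, key, ?_, ?_⟩
  · rw [s2, hgs, s6 β hβ.1, ESF_sn β hβ.2, hβ.2, hc, Int.cast_one, one_smul]
  · intro g' hg'
    refine ⟨g' * g, mul_mem hg' hg, β, hβ, c, hc, hc0, ?_⟩
    rw [map_smul]
    rfl
  · intro c' hc' hc'0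
    exact ⟨g, hg, β, hβ, c' * c, by rw [map_mul, hc', hc], mul_ne_zero hc'0 hc0, (mul_smul _ _ _).symm⟩
  · intro t h ht hh
    obtain ⟨g', hg', hX'⟩ := key t ht
    have : h = g' := LinearEquiv.ext fun v => by rw [hh v, hX' v]
    rw [this]
    exact hg'
  · intro g' hg' t h hh
    exact (e3 _ hEx).2.2.2.2.2.2.2.1 g' (g6 g' hg').1 t h hh

end Pool.Agent.EXT
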