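import Pool.Agent.helper53.EXT.SpecM

set_option autoImplicit false

open Finset

namespace Pool.Agent.EXT

open Pool.Agent.EXC

theorem NMF_gen (K : Type) [Field K] [Finite K] : ∃ ζ : K, ζ ≠ 0 ∧ ∀ s : K, s ≠ 0 → ∃ k : ℕ, s = ζ ^ k := by
  obtain ⟨g, hg⟩ := IsCyclic.exists_generator (α := Kˣ)
  refine ⟨(g : K), g.ne_zero, fun s hs => ?_⟩
  have h1 := hg (Units.mk0 s hs)
  rw [← mem_powers_iff_mem_zpowers] at h1
  obtain ⟨k, hk⟩ := h1
  refine ⟨k, ?_⟩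
  have h2 := congrArg (fun u : Kˣ => (u : K)) hk
  simp only [Units.val_pow_eq_pow_val, Units.val_mk0] at h2
  exact h2.symm

/-- the group of the linear maps which induce elements of `C` -/
def NMF_H {K : Type} [Field K] (τ : K ≃+* K) (C : Subgroup (GF τ)) : Subgroup (Lm C6 K ≃ₗ[K] Lm C6 K) where
  carrier := {h | h ∈ GS τ ∧ ∃ f ∈ C, ∀ w : LT τ, (((f : GF τ) : Equiv.Perm (LT τ)) w : Lm C6 K) = h w}
  one_mem' := ⟨one_mem _, 1, one_mem _, fun _ => rfl⟩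
  mul_mem' := by
    rintro h h' ⟨hg, f, hf, e⟩ ⟨hg', f', hf', e'⟩
    refine ⟨mul_mem hg hg', f * f', mul_mem hf hf', fun w => ?_⟩
    have e1 : ((f * f' : GF τ) : Equiv.Perm (LT τ)) w = (f : Equiv.Perm (LT τ)) ((f' : Equiv.Perm (LT τ)) w) := rfl
    rw [e1, e, e']
    rfl
  inv_mem' := by
    rintro h ⟨hg, f, hf, e⟩
    refine ⟨inv_mem hg, f⁻¹, inv_mem hf, fun w => ?_⟩
    have e1 := e (((f⁻¹ : GF τ) : Equiv.Perm (LT τ)) w)
    have e2 : (f : Equiv.Perm (LT τ)) (((f⁻¹ : GF τ) : Equiv.Perm (LT τ)) w) = w := by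
      have e3 : ((f⁻¹ : GF τ) : Equiv.Perm (LT τ)) = (f : Equiv.Perm (LT τ))⁻¹ := rfl
      rw [e3]
      exact (f : Equiv.Perm (LT τ)).apply_symm_apply w
    rw [e2] at e1
    rw [e1]
    exact (LinearEquiv.symm_apply_apply h _).symm

theorem NMF_idx (l : List ((Fin 6 → ℤ) × Bool)) (hl : l ∈ PLm) : ∃ i : Fin 5, PLm.get i = l := by
  obtain ⟨i, hi⟩ := List.get_of_mem hl
  exact ⟨i, hi⟩

theorem NMF (hSGR : SGR_stmt) (hGFX : GFX_stmt) (hNMA : NMA_stmt) (hNMC : NMC_stmt) (hNMW : NMW_stmt) (hNMD : NMD_stmt) (hNMG : NMG_stmt) (hNMY : NMY_stmt) : NMF_stmt := by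
  intro K _ _ h2 x hx
  obtain ⟨ζ, hζ, hpow⟩ := NMF_gen K
  obtain ⟨t, ht⟩ := hNMY K h2 x hx
  obtain ⟨hC1, hC2, hC3⟩ := hNMC
  have hpr : ∀ l ∈ PLm, prR ζ l ∈ GS (RingEquiv.refl K) ∧ ∃ g : GF (RingEquiv.refl K), ∀ w : LT (RingEquiv.refl K),
      (((g * (x t * t⁻¹) * g⁻¹ : GF (RingEquiv.refl K)) : Equiv.Perm (LT (RingEquiv.refl K))) w : Lm C6 K) = prR ζ l w := by
    intro l hl
    obtain ⟨u, v, b, b', rfl, hu, hv, hw⟩ := hNMW l hl
    have he : prR ζ [(u, b), (v, b')] = Rt u (if b then (1 : K) else ζ) * Rt v (if b' then (1 : K) else ζ) := by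
      unfold prR
      rw [List.map_cons, List.map_cons, List.map_nil, List.prod_cons, List.prod_cons, List.prod_nil, mul_one]
    have ha : ∀ b : Bool, (if b then (1 : K) else ζ) ≠ 0 := by
      intro b
      cases b
      · exact hζ
      · exact one_ne_zero
    rw [he]
    refine ⟨mul_mem (((hNMA K h2).1 u hu.1).2.2.2 _) (((hNMA K h2).1 v hv.1).2.2.2 _), ?_⟩
    exact ht u v hu hv hw _ _ (ha b) (ha b')
  have hch : ∀ i : Fin 5, ∃ g : GF (RingEquiv.refl K), ∀ w : LT (RingEquiv.refl K),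
      (((g * (x t * t⁻¹) * g⁻¹ : GF (RingEquiv.refl K)) : Equiv.Perm (LT (RingEquiv.refl K))) w : Lm C6 K) = prR ζ (PLm.get i) w :=
    fun i => (hpr _ (List.get_mem PLm i)).2
  choose g hg using hch
  refine ⟨t, g, ?_⟩
  set C : Subgroup (GF (RingEquiv.refl K)) := Subgroup.closure (Set.range fun i => g i * (x t * t⁻¹) * (g i)⁻¹) with hC
  have hH : ∀ l ∈ PLm, prR ζ l ∈ NMF_H (RingEquiv.refl K) C := by
    intro l hl
    obtain ⟨i, hi⟩ := NMF_idx l hl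
    refine ⟨(hpr l hl).1, g i * (x t * t⁻¹) * (g i)⁻¹, Subgroup.subset_closure ⟨i, rfl⟩, fun w => ?_⟩
    rw [← hi]
    exact hg i w
  have hD := hNMD K h2 PLm ζ (NMF_H (RingEquiv.refl K) C) hC1 hH
  have hone : ∀ α, ip C6 α α = 2 → Rt α (1 : K) ∈ NMF_H (RingEquiv.refl K) C := by
    intro α hα
    have h1 := (hD _ (hC2 α hα)).2
    have h3 : prR ζ [(α, true)] = Rt α (1 : K) := by
      unfold prR
      rw [List.map_cons, List.map_nil, List.prod_cons, List.prod_nil, mul_one]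
      rfl
    rwa [h3] at h1
  have hze : Rt (-sr 1) ζ ∈ NMF_H (RingEquiv.refl K) C := by
    have h1 := (hD _ hC3).2
    have h3 : prR ζ [(-sr 1, false)] = Rt (-sr 1) ζ := by
      unfold prR
      rw [List.map_cons, List.map_nil, List.prod_cons, List.prod_nil, mul_one]
      rfl
    rwa [h3] at h1
  have hG := hNMG K h2 (NMF_H (RingEquiv.refl K) C) hone ζ hpow hze
  rw [eq_top_iff]
  intro f _
  obtain ⟨h, hh, e⟩ := f.2
  obtain ⟨-, f', hf', e'⟩ := hG hh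
  have hff : f = f' := by
    apply Subtype.ext
    apply Equiv.ext
    intro w
    apply Subtype.ext
    rw [e w, e' w]
  rw [hff]
  exact hf'

end Pool.Agent.EXT
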